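import Pool.Agent.H216.SOS.Card

/-!
# The gaps in the ranks of sums of squares divisible by the squared norm (`MP_ce7760_an`, Q1)

`S d n` is the set `S_d(n)` of the problem file.  We prove that for every `n ≥ 4` and every
`κ ≥ 0` the set `S_1(n)` has no member strictly between `κ n` and
`(κ + 1) n - κ (κ + 1) / 2`, that both ends of each of these gaps belong to `S_1(n)`, and the
structure theorem behind this: below the gap the factor `A` is itself a sum of at most `κ`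
squares.  In particular `S_1(4)` and `S_1(5)` are completely determined.
-/

set_option autoImplicit false

open MvPolynomial ComplexConjugate

namespace Pool.Agent.Results.MP_ce7760_an.RankGaps

open Pool.Agent.H216.SOS

/-- The set `S_d(n)` of the problem file: the ranks `m` of the Hermitian sums of squares
`∑ |p_j(z)|^2` (`m` linearly independent holomorphic polynomials `p_j` on `ℂ^n`) which are equal
to `‖z‖^(2d) A(z, conj z)` for some polynomial `A` in `z` and `conj z`. -/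
def S (d n : ℕ) : Set ℕ :=
  {m | ∃ (p : Fin m → MvPolynomial (Fin n) ℂ) (A : MvPolynomial (Fin n ⊕ Fin n) ℂ),
    LinearIndependent ℂ p ∧ ∀ z : Fin n → ℂ,
      ((∑ j, ‖eval z (p j)‖ ^ 2 : ℝ) : ℂ) =
        ((∑ k, ‖z k‖ ^ 2 : ℝ) : ℂ) ^ d * eval (Sum.elim z (fun k => conj (z k))) A}

theorem mem_of_TSet {n m : ℕ} (h : m ∈ TSet n) : m ∈ S 1 n := by
  obtain ⟨M, rfl⟩ := h
  obtain ⟨q, -, hq⟩ := exists_of_TT M
  obtain ⟨p, A, hp, hA⟩ := exists_of_SS q
  rw [← hq]
  exact ⟨p, A, hp, fun z => by rw [pow_one]; exact hA z⟩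

/-- the structure theorem -/
theorem structure_thm {n κ m : ℕ} (hn : 4 ≤ n) (hκ : κ * (κ + 1) + 4 ≤ 2 * n)
    (hm : 2 * m + κ * (κ + 1) < 2 * (κ + 1) * n)
    (p : Fin m → MvPolynomial (Fin n) ℂ) (A : MvPolynomial (Fin n ⊕ Fin n) ℂ)
    (hp : LinearIndependent ℂ p)
    (hA : ∀ z : Fin n → ℂ, ((∑ j, ‖eval z (p j)‖ ^ 2 : ℝ) : ℂ) =
      ((∑ k, ‖z k‖ ^ 2 : ℝ) : ℂ) ^ 1 * eval (Sum.elim z (fun k => conj (z k))) A) :
    ∃ ρ ≤ κ, ∃ q : Fin ρ → MvPolynomial (Fin n) ℂ, LinearIndependent ℂ q ∧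
      (∀ z : Fin n → ℂ, eval (Sum.elim z (fun k => conj (z k))) A =
        ((∑ i, ‖eval z (q i)‖ ^ 2 : ℝ) : ℂ)) ∧
      Submodule.span ℂ (Set.range p) =
        Submodule.span ℂ (Set.range fun x : Fin n × Fin ρ => X x.1 * q x.2) ∧
      m ≤ ρ * n := by
  obtain ⟨n, rfl⟩ : ∃ n', n = n' + 4 := ⟨n - 4, by omega⟩
  obtain ⟨ρ, q, lam, hρ, hq, hlam, hAq, hspan, hN⟩ := main_four κ hκ hm p hp A
    (fun z => by rw [hA z, pow_one])
  refine ⟨ρ, hρ, fun i => ((Real.sqrt (lam i) : ℝ) : ℂ) • q i, ?_, ?_, ?_, ?_⟩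
  · exact hq.units_smul (fun i => Units.mk0 ((Real.sqrt (lam i) : ℝ) : ℂ)
      (Complex.ofReal_ne_zero.2 (Real.sqrt_pos.2 (hlam i)).ne'))
  · intro z
    rw [hAq z z]
    push_cast
    apply Finset.sum_congr rfl
    intro i _
    rw [MvPolynomial.smul_eval, norm_mul, Complex.norm_real, Real.norm_eq_abs,
      abs_of_nonneg (Real.sqrt_nonneg _), Complex.mul_conj']
    rw [← Complex.ofReal_pow, ← Complex.ofReal_pow, mul_pow, Real.sq_sqrt (hlam i).le]
    push_cast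
    rfl
  · rw [hspan]
    unfold SS
    apply le_antisymm
    · rw [Submodule.span_le]
      rintro _ ⟨⟨k, i⟩, rfl⟩
      have h1 : (X k * q i : MvPolynomial (Fin (n + 4)) ℂ) =
          ((Real.sqrt (lam i) : ℝ) : ℂ)⁻¹ • (X k * (((Real.sqrt (lam i) : ℝ) : ℂ) • q i)) := by
        rw [mul_smul_comm, smul_smul, inv_mul_cancel₀, one_smul]
        exact Complex.ofReal_ne_zero.2 (Real.sqrt_pos.2 (hlam i)).ne'
      change (X k * q i : MvPolynomial (Fin (n + 4)) ℂ) ∈ _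
      rw [h1]
      exact Submodule.smul_mem _ _ (Submodule.subset_span ⟨(k, i), rfl⟩)
    · rw [Submodule.span_le]
      rintro _ ⟨⟨k, i⟩, rfl⟩
      change (X k * (((Real.sqrt (lam i) : ℝ) : ℂ) • q i) : MvPolynomial (Fin (n + 4)) ℂ) ∈ _
      rw [mul_smul_comm]
      exact Submodule.smul_mem _ _ (Submodule.subset_span ⟨(k, i), rfl⟩)
  · rw [mul_comm]
    exact hN

theorem gap {n κ m : ℕ} (hn : 4 ≤ n) (h1 : κ * n < m)
    (h2 : 2 * m + κ * (κ + 1) < 2 * (κ + 1) * n) : m ∉ S 1 n := by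
  rintro ⟨p, A, hp, hA⟩
  have hκ : κ * (κ + 1) + 4 ≤ 2 * n := by
    obtain ⟨c, hc⟩ := Nat.even_mul_succ_self κ
    rw [hc] at h2 ⊢
    have e : 2 * (κ + 1) * n = 2 * (κ * n) + 2 * n := by ring
    omega
  obtain ⟨ρ, hρ, q, -, -, -, h3⟩ := structure_thm hn hκ h2 p A hp hA
  have h4 : ρ * n ≤ κ * n := Nat.mul_le_mul_right _ hρ
  omega

theorem TSet_add {n m : ℕ} (hm : m ∈ TSet (n + 1)) (j : ℕ) : m + j * (n + 1) ∈ TSet (n + 1) := by
  induction j with
  | zero => simpa using hm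
  | succ j ih =>
    have := add_mem_TSet ih
    have e : m + (j + 1) * (n + 1) = m + j * (n + 1) + (n + 1) := by ring
    rwa [e]

theorem S_four : S 1 4 = {0, 4} ∪ {m | 7 ≤ m} := by
  ext m
  constructor
  · intro hm
    have g0 := fun h1 h2 => gap (n := 4) (κ := 0) (m := m) le_rfl h1 h2 hm
    have g1 := fun h1 h2 => gap (n := 4) (κ := 1) (m := m) le_rfl h1 h2 hm
    simp only [Set.mem_union, Set.mem_insert_iff, Set.mem_singleton_iff, Set.mem_ofPred_eq]
    by_contra hcon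
    push Not at hcon
    by_cases h : m < 4
    · exact g0 (by omega) (by omega)
    · exact g1 (by omega) (by omega)
  · intro hm
    apply mem_of_TSet
    simp only [Set.mem_union, Set.mem_insert_iff, Set.mem_singleton_iff, Set.mem_ofPred_eq] at hm
    rcases hm with (rfl | rfl) | hm
    · exact zero_mem_TSet 4
    · exact mul_mem_TSet 3 1
    · have e7 : 7 ∈ TSet 4 := star_mem_TSet (κ := 2) (by norm_num) (by norm_num)
      have e8 : 8 ∈ TSet 4 := mul_mem_TSet 3 2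
      have e9 : 9 ∈ TSet 4 := star_mem_TSet (κ := 3) (by norm_num) (by norm_num)
      have e10 : 10 ∈ TSet 4 := mem_four_ten
      obtain ⟨j, r, hr, rfl⟩ : ∃ j r, r < 4 ∧ m = 7 + r + j * (3 + 1) :=
        ⟨(m - 7) / 4, (m - 7) % 4, Nat.mod_lt _ (by norm_num), by omega⟩
      apply TSet_add
      interval_cases r
      · exact e7
      · exact e8
      · exact e9
      · exact e10

theorem S_five : S 1 5 = {0, 5, 9, 10} ∪ {m | 12 ≤ m} := by
  ext m
  constructor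
  · intro hm
    have g0 := fun h1 h2 => gap (n := 5) (κ := 0) (m := m) (by norm_num) h1 h2 hm
    have g1 := fun h1 h2 => gap (n := 5) (κ := 1) (m := m) (by norm_num) h1 h2 hm
    have g2 := fun h1 h2 => gap (n := 5) (κ := 2) (m := m) (by norm_num) h1 h2 hm
    simp only [Set.mem_union, Set.mem_insert_iff, Set.mem_singleton_iff, Set.mem_ofPred_eq]
    by_contra hcon
    push Not at hcon
    by_cases h : m < 5
    · exact g0 (by omega) (by omega)
    · by_cases h' : m < 9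
      · exact g1 (by omega) (by omega)
      · exact g2 (by omega) (by omega)
  · intro hm
    apply mem_of_TSet
    simp only [Set.mem_union, Set.mem_insert_iff, Set.mem_singleton_iff, Set.mem_ofPred_eq] at hm
    rcases hm with (rfl | rfl | rfl | rfl) | hm
    · exact zero_mem_TSet 5
    · exact mul_mem_TSet 4 1
    · exact star_mem_TSet (κ := 2) (by norm_num) (by norm_num)
    · exact mul_mem_TSet 4 2
    · have e12 : 12 ∈ TSet 5 := star_mem_TSet (κ := 3) (by norm_num) (by norm_num)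
      have e13 : 13 ∈ TSet 5 := mem_five_thirteen
      have e9 : 9 ∈ TSet 5 := star_mem_TSet (κ := 2) (by norm_num) (by norm_num)
      have e14 : 14 ∈ TSet 5 := TSet_add (n := 4) e9 1
      have e15 : 15 ∈ TSet 5 := mul_mem_TSet 4 3
      have e16 : 16 ∈ TSet 5 := mem_five_sixteen
      obtain ⟨j, r, hr, rfl⟩ : ∃ j r, r < 5 ∧ m = 12 + r + j * (4 + 1) :=
        ⟨(m - 12) / 5, (m - 12) % 5, Nat.mod_lt _ (by norm_num), by omega⟩
      apply TSet_add
      interval_cases r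
      · exact e12
      · exact e13
      · exact e14
      · exact e15
      · exact e16

theorem result :
    -- the gaps
    (∀ n κ m : ℕ, 4 ≤ n → κ * n < m → 2 * m + κ * (κ + 1) < 2 * (κ + 1) * n → m ∉ S 1 n) ∧
    -- the ends of the gaps are ranks
    (∀ n κ : ℕ, 1 ≤ n → κ * n ∈ S 1 n) ∧
    (∀ n κ m : ℕ, κ + 1 ≤ n → 2 * m + κ * (κ + 1) = 2 * (κ + 1) * n → m ∈ S 1 n) ∧
    -- the structure below the gaps
    (∀ n κ m : ℕ, 4 ≤ n → κ * (κ + 1) + 4 ≤ 2 * n → 2 * m + κ * (κ + 1) < 2 * (κ + 1) * n →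
      ∀ (p : Fin m → MvPolynomial (Fin n) ℂ) (A : MvPolynomial (Fin n ⊕ Fin n) ℂ),
      LinearIndependent ℂ p →
      (∀ z : Fin n → ℂ, ((∑ j, ‖eval z (p j)‖ ^ 2 : ℝ) : ℂ) =
        ((∑ k, ‖z k‖ ^ 2 : ℝ) : ℂ) ^ 1 * eval (Sum.elim z (fun k => conj (z k))) A) →
      ∃ ρ ≤ κ, ∃ q : Fin ρ → MvPolynomial (Fin n) ℂ, LinearIndependent ℂ q ∧
        (∀ z : Fin n → ℂ, eval (Sum.elim z (fun k => conj (z k))) A =
          ((∑ i, ‖eval z (q i)‖ ^ 2 : ℝ) : ℂ)) ∧
        Submodule.span ℂ (Set.range p) =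
          Submodule.span ℂ (Set.range fun x : Fin n × Fin ρ => X x.1 * q x.2)) ∧
    -- dimensions four and five
    S 1 4 = {0, 4} ∪ {m | 7 ≤ m} ∧
    S 1 5 = {0, 5, 9, 10} ∪ {m | 12 ≤ m} := by
  refine ⟨fun n κ m hn h1 h2 => gap hn h1 h2, ?_, ?_, ?_, S_four, S_five⟩
  · intro n κ hn
    obtain ⟨n, rfl⟩ : ∃ n', n = n' + 1 := ⟨n - 1, by omega⟩
    exact mem_of_TSet (mul_mem_TSet n κ)
  · intro n κ m hκ hm
    apply mem_of_TSet
    apply star_mem_TSet hκ
    rw [Nat.add_sub_cancel, mul_comm (κ + 1) κ]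
    exact hm
  · intro n κ m hn hκ hm p A hp hA
    obtain ⟨ρ, hρ, q, hq, h1, h2, -⟩ := structure_thm hn hκ hm p A hp hA
    exact ⟨ρ, hρ, q, hq, h1, h2⟩

end Pool.Agent.Results.MP_ce7760_an.RankGaps
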