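import Pool.Agent.H216.IG.Str
import Pool.Agent.H216.IG.Fin
import Pool.Agent.H216.IG.MULTI
import Pool.Agent.H216.IG.TABB
import Pool.Agent.H216.IG.SIX

/-!
# The ranks inside the windows (`MP_ce7760_an`, Q1)

`S d n` is the set `S_d(n)` of the problem file. A rank `m ≤ (K + 1) n - K (K + 1) / 2` (where
`K (K + 1) / 2 + 2 ≤ n`) lies in one of the windows `[k n - k (k - 1) / 2, k n]`, `k ≤ K`, and is
then the dimension of the space of the products of `k` linearly independent polynomials with the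
variables. We show that inside the window there is a second family of gaps and determine `S_1(n)`
completely below `(K + 1) n - K (K + 1) / 2` for `K ≤ 12`: there only the two families of gaps are
missing.
-/

set_option autoImplicit false

open MvPolynomial ComplexConjugate

namespace Pool.Agent.Results.MP_ce7760_an.WindowGaps

open Pool.Agent.H216.SOS Pool.Agent.H216.IG

/-- The set `S_d(n)` of the problem file: the ranks `m` of the Hermitian sums of squares
`∑ |p_j(z)|^2` (`m` linearly independent holomorphic polynomials `p_j` on `ℂ^n`) which are equal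
to `‖z‖^(2d) A(z, conj z)` for some polynomial `A` in `z` and `conj z`. -/
def S (d n : ℕ) : Set ℕ :=
  {m | ∃ (p : Fin m → MvPolynomial (Fin n) ℂ) (A : MvPolynomial (Fin n ⊕ Fin n) ℂ),
    LinearIndependent ℂ p ∧ ∀ z : Fin n → ℂ,
      ((∑ j, ‖eval z (p j)‖ ^ 2 : ℝ) : ℂ) =
        ((∑ k, ‖z k‖ ^ 2 : ℝ) : ℂ) ^ d * eval (Sum.elim z (fun k => conj (z k))) A}

theorem mem_of_TSet {n m : ℕ} (h : m ∈ TSet n) : m ∈ S 1 n := by
  obtain ⟨M, rfl⟩ := h
  obtain ⟨q, -, hq⟩ := exists_of_TT M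
  obtain ⟨p, A, hp, hA⟩ := exists_of_SS q
  rw [← hq]
  exact ⟨p, A, hp, fun z => by rw [pow_one]; exact hA z⟩

theorem window {n κ m : ℕ} (hn : 4 ≤ n) (h : 2 * m + κ * (κ + 1) < 2 * (κ + 1) * n)
    (hκ : κ * (κ + 1) + 4 ≤ 2 * n) (hm : m ∈ S 1 n) :
    ∃ ρ ≤ κ, ∃ q : Fin ρ → MvPolynomial (Fin n) ℂ, LinearIndependent ℂ q ∧
      m = Module.finrank ℂ (SS q) ∧ m ≤ ρ * n := by
  obtain ⟨p, A, hp, hA⟩ := hm
  exact Str.structure_dim hn hκ h p A hp hA

theorem le_sum_of_mem {ts : List ℕ} {t : ℕ} (h : t ∈ ts) : t ≤ ts.sum :=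
  List.single_le_sum (fun _ _ => Nat.zero_le _) t h

theorem sum_le {n : ℕ} : ∀ ts : List ℕ, (∀ t ∈ ts, t + 1 ≤ n) →
    (ts.map fun t => t * (t + 1)).sum ≤ n * ts.sum
  | [], _ => by simp
  | t :: ts, h => by
    have h1 := sum_le ts (fun x hx => h x (List.mem_cons_of_mem _ hx))
    have h2 := h t (List.mem_cons_self)
    simp only [List.map_cons, List.sum_cons]
    have h3 : t * (t + 1) ≤ n * t := by
      rw [mul_comm n t]
      exact Nat.mul_le_mul_left _ h2
    have h4 : n * (t + ts.sum) = n * t + n * ts.sum := Nat.mul_add _ _ _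
    omega

theorem attained {n k m : ℕ} (ts : List ℕ) (hkn : k ≤ n) (hn : 2 ≤ n) (hts : ts.sum + 1 ≤ k)
    (h : 2 * m + (ts.map fun t => t * (t + 1)).sum = 2 * (n * k)) : m ∈ S 1 n := by
  apply mem_of_TSet
  have ht : ∀ t ∈ ts, t + 1 ≤ n := by
    intro t ht
    have := le_sum_of_mem ht
    omega
  have h1 := sum_le ts ht
  obtain ⟨n, rfl⟩ : ∃ n', n = n' + 1 := ⟨n - 1, by omega⟩
  obtain ⟨d, rfl⟩ : ∃ d, k = ts.sum + 1 + d := ⟨k - (ts.sum + 1), by omega⟩
  have e1 : (n + 1) * (ts.sum + 1 + d) = (n + 1) * (1 + ts.sum) + d * (n + 1) := by ring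
  have e2 : (n + 1) * (1 + ts.sum) = (n + 1) + (n + 1) * ts.sum := by ring
  obtain ⟨m', rfl⟩ : ∃ m', m = m' + d * (n + 1) := ⟨m - d * (n + 1), by omega⟩
  apply Str.TSet_add
  apply MULTI.t_MULTI (n + 1) ts m' hn ht
  omega

theorem no_window {n k j m : ℕ} (hj : 1 ≤ j) (hjk : j * (j + 3) + 2 < 2 * k)
    (hk : k * (k + 1) + 4 ≤ 2 * n) (h1 : 2 * (n * k) < 2 * m + (k - j + 1) * (k - j))
    (h2 : 2 * m + (k - j) * (k - j - 1) + (j + 1) * j < 2 * (n * k)) : m ∉ S 1 n := by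
  intro hm
  have hk4 : 4 ≤ k := by
    by_contra hlt
    have : j * 4 ≤ j * (j + 3) := Nat.mul_le_mul_left _ (by omega)
    omega
  have hkn : k ≤ n := by
    have : k * 5 ≤ k * (k + 1) := Nat.mul_le_mul_left _ (by omega)
    omega
  have hkk : (k - j + 1) * (k - j) ≤ k * (k + 1) :=
    Nat.mul_le_mul (by omega) (by omega)
  have e : 2 * (k + 1) * n = 2 * (n * k) + 2 * n := by ring
  obtain ⟨ρ, hρ, q, hq, hmq, hle⟩ := window (κ := k) (by omega) (by omega) hk hm
  have hρk : ρ = k := by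
    by_contra hne
    have h3 : ρ * n ≤ (k - 1) * n := Nat.mul_le_mul_right _ (by omega)
    have h4 : (k - 1) * n + n = n * k := by
      obtain ⟨k, rfl⟩ : ∃ k', k = k' + 1 := ⟨k - 1, by omega⟩
      rw [Nat.add_sub_cancel]
      ring
    omega
  subst hρk
  have h3 := Fin.syz_gap hj hjk hkn q hq (by rw [← hmq]; exact h1)
  rw [← hmq] at h3
  omega

theorem attained_six {n c m : ℕ} (hc : 3 ≤ c) (hn : c ≤ n)
    (h : 2 * m + (c * (c - 1) + 10) = 2 * (n * (c + 3))) : m ∈ S 1 n :=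
  mem_of_TSet (SIX.t_SIX n c m hc hn (by omega))

theorem determined {n K m : ℕ} (hn : 4 ≤ n) (hK9 : K ≤ 12) (hK : K * (K + 1) + 4 ≤ 2 * n)
    (h : 2 * m + K * (K + 1) < 2 * (K + 1) * n) :
    m ∈ S 1 n ↔ m = 0 ∨ ∃ k ≤ K, m ≤ n * k ∧ 2 * (n * k) ≤ 2 * m + k * (k - 1) ∧
      ∀ j, 1 ≤ j → j * (j + 3) + 2 < 2 * k →
        2 * m + (k - j) * (k - j - 1) + (j + 1) * j < 2 * (n * k) →
        2 * m + (k - j + 1) * (k - j) ≤ 2 * (n * k) := by
  have hKn : K ≤ n := by
    by_contra hlt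
    have : K * 5 ≤ K * (K + 1) := Nat.mul_le_mul_left _ (by omega)
    omega
  constructor
  · intro hm
    obtain ⟨ρ, hρ, q, hq, hmq, hle⟩ := window hn h hK hm
    rcases Nat.eq_zero_or_pos ρ with h0 | h0
    · left
      rw [h0, zero_mul] at hle
      omega
    · right
      have hmac := macaulay q hq
      rw [← hmq] at hmac
      have e1 : 2 * n * ρ = 2 * (n * ρ) := by ring
      have e2 : ρ * n = n * ρ := mul_comm _ _
      rw [e1] at hmac
      rw [e2] at hle
      refine ⟨ρ, hρ, hle, hmac, fun j hj hj1 hj2 => ?_⟩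
      by_contra hcon
      have h3 := Fin.syz_gap hj hj1 (by omega) q hq (by rw [← hmq]; omega)
      rw [← hmq] at h3
      omega
  · rintro (rfl | ⟨k, hk, h1, h2, h3⟩)
    · exact mem_of_TSet (zero_mem_TSet n)
    · rcases Nat.eq_zero_or_pos k with h0 | h0
      · subst h0
        have : m = 0 := by omega
        subst this
        exact mem_of_TSet (zero_mem_TSet n)
      · obtain ⟨s, hs⟩ : ∃ s, n * k = m + s := ⟨n * k - m, by omega⟩
        rcases TABB.t_TABB k s h0 (by omega) (by omega) with ⟨j, hj, hj1, hj2, hj3⟩ |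
          ⟨ts, ht1, ht2⟩ | ⟨c, hc, hkc, hc2⟩
        · exfalso
          have := h3 j hj hj1 (by omega)
          omega
        · exact attained (k := k) ts (by omega) (by omega) ht1 (by omega)
        · subst hkc
          exact attained_six hc (by omega) (by omega)

theorem result :
    -- the gaps inside the windows
    (∀ n k j m : ℕ, 1 ≤ j → j * (j + 3) + 2 < 2 * k → k * (k + 1) + 4 ≤ 2 * n →
      2 * (n * k) < 2 * m + (k - j + 1) * (k - j) →
      2 * m + (k - j) * (k - j - 1) + (j + 1) * j < 2 * (n * k) → m ∉ S 1 n) ∧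
    -- members of the windows
    (∀ (n k m : ℕ) (ts : List ℕ), k ≤ n → 2 ≤ n → ts.sum + 1 ≤ k →
      2 * m + (ts.map fun t => t * (t + 1)).sum = 2 * (n * k) → m ∈ S 1 n) ∧
    -- complete determination below `(K + 1) n - K (K + 1) / 2`, for `K ≤ 12`
    (∀ n K m : ℕ, 4 ≤ n → K ≤ 12 → K * (K + 1) + 4 ≤ 2 * n →
      2 * m + K * (K + 1) < 2 * (K + 1) * n →
      (m ∈ S 1 n ↔ m = 0 ∨ ∃ k ≤ K, m ≤ n * k ∧ 2 * (n * k) ≤ 2 * m + k * (k - 1) ∧
        ∀ j, 1 ≤ j → j * (j + 3) + 2 < 2 * k →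
          2 * m + (k - j) * (k - j - 1) + (j + 1) * j < 2 * (n * k) →
          2 * m + (k - j + 1) * (k - j) ≤ 2 * (n * k))) ∧
    -- the reason: the number of the linear syzygies of `k` independent polynomials
    (∀ (n k j : ℕ) (q : Fin k → MvPolynomial (Fin n) ℂ), LinearIndependent ℂ q → 1 ≤ j →
      j * (j + 3) + 2 < 2 * k → k ≤ n →
      2 * (n * k) < 2 * Module.finrank ℂ (Submodule.span ℂ
        (Set.range fun x : Fin n × Fin k => X x.1 * q x.2)) + (k - j + 1) * (k - j) →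
      2 * (n * k) ≤ 2 * Module.finrank ℂ (Submodule.span ℂ
        (Set.range fun x : Fin n × Fin k => X x.1 * q x.2)) +
        (k - j) * (k - j - 1) + (j + 1) * j) :=
  ⟨fun _ _ _ _ h1 h2 h3 h4 h5 => no_window h1 h2 h3 h4 h5,
    fun _ _ _ ts h1 h2 h3 h4 => attained ts h1 h2 h3 h4,
    fun _ _ _ h1 h2 h3 h4 => determined h1 h2 h3 h4,
    fun _ _ _ q h1 h2 h3 h4 h5 => Fin.syz_gap h2 h3 h4 q h1 h5⟩

end Pool.Agent.Results.MP_ce7760_an.WindowGaps
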